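import Pool.Agent.Y290.PL.All

/-!
# Analytic projection after a change of variables in `BMO`

There is an increasing homeomorphism `h` of the line, locally absolutely continuous with derivative
in `A^∞`, and a sequence of functions of norm one in `BMOA` whose compositions with `h` have
analytic projections tending to zero in `BMO`.
-/

set_option autoImplicit false

namespace Pool.Agent.Results.MP_0cd561_an.NoLowerBound

open Pool.Agent.Y290.PL

/-- There are `h` in the group `G` and functions `f k` in `BMOA` of norm one in `BMO` such that the
norms in `BMO` of the analytic projections `g k` of `f k ∘ h` tend to zero. -/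
theorem result : ∃ h : ℝ → ℝ, InG h ∧
    ∃ f g : ℕ → ℝ → ℂ, (∀ k, IsBMOA (f k) ∧ bmo (f k) = 1 ∧ IsProj (f k ∘ h) (g k)) ∧
      Filter.Tendsto (fun k => bmo (g k)) Filter.atTop (nhds 0) := all

end Pool.Agent.Results.MP_0cd561_an.NoLowerBound
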